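import Pool.Agent.MWS.StmtsA

/-!
# MWS, row DBA: repeat heavy letters in all blocks at once
-/

namespace Pool.Agent.MWS.H13

open Pool.Agent.Helper14_MV Pool.Agent.Helper2_MV Pool.Agent.MVO Pool.Agent.MWL Pool.Agent.MWS

theorem rep_mem {x c n : ℕ} {P Q : List ℕ} (h : c ∈ P ++ List.replicate n x ++ Q) :
    c ∈ P ++ x :: Q := by
  rw [List.mem_append, List.mem_append] at h
  rw [List.mem_append, List.mem_cons]
  rcases h with (h | h) | h
  · exact Or.inl h
  · exact Or.inr (Or.inl (List.eq_of_mem_replicate h))
  · exact Or.inr (Or.inr h)

theorem rep_count {x c n : ℕ} {P Q : List ℕ} (hn : 1 ≤ n) :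
    (P ++ x :: Q).count c ≤ (P ++ List.replicate n x ++ Q).count c := by
  rw [List.count_append, List.count_append, List.count_append, List.count_replicate,
    List.count_cons]
  by_cases h : x = c
  · subst h
    simp
    omega
  · have h1 : (x == c) = false := by simpa using h
    simp [h1]

theorem dba (hBLR : BlrStmt) (hDBL : DblStmt) : DbaStmt := by
  intro β hI k B B1 hB h
  apply hBLR β k B B1
  intro m hm
  have hmem : ∀ j ≤ k, ∀ c, c ∈ (if j < m then B1 j else B j) → c ∈ B j := by
    intro j hj c hc
    by_cases hjm : j < m
    · rw [if_pos hjm] at hc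
      rcases h j hj with h1 | ⟨x, P, Q, n, hn, h1, h2, h3⟩
      · rw [h1] at hc
        exact hc
      · rw [h3] at hc
        rw [h2]
        exact rep_mem hc
    · rw [if_neg hjm] at hc
      exact hc
  have hcnt : ∀ j ≤ k, ∀ c, (B j).count c ≤ (if j < m then B1 j else B j).count c := by
    intro j hj c
    by_cases hjm : j < m
    · rw [if_pos hjm]
      rcases h j hj with h1 | ⟨x, P, Q, n, hn, h1, h2, h3⟩
      · rw [h1]
      · rw [h3, h2]
        exact rep_count hn
    · rw [if_neg hjm]
  have hF : OkB k (fun j => if j < m then B1 j else B j) := by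
    constructor
    · intro j hj c hc
      exact hB.ok j hj c (hmem j hj c hc)
    · intro j hj c hc
      refine (hB.ml j hj c (hmem j hj c hc)).trans ?_
      unfold deg
      apply Finset.sum_le_sum
      intro i hi
      rw [Finset.mem_range] at hi
      exact hcnt i (by omega) c
  rcases h m hm with h1 | ⟨x, P, Q, n, hn, h1, h2, h3⟩
  · have e : asm k (fun j => if j < m then B1 j else B j) =
        asm k (fun j => if j < m + 1 then B1 j else B j) := by
      apply asm_congr
      intro j hj
      by_cases hjm : j = m
      · subst hjm
        rw [if_neg (lt_irrefl _), if_pos (Nat.lt_succ_self _), h1]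
      · by_cases hjl : j < m
        · rw [if_pos hjl, if_pos (by omega)]
        · rw [if_neg hjl, if_neg (by omega)]
    rw [e]
    exact RR.refl _
  · have h4 := hDBL β hI k (fun j => if j < m then B1 j else B j) hF m hm x P Q
      (by rw [if_neg (lt_irrefl _)]; exact h2) (by rw [if_neg (lt_irrefl _)]; exact h1) n hn
    have e : asm k (Function.update (fun j => if j < m then B1 j else B j) m
        (P ++ List.replicate n x ++ Q)) = asm k (fun j => if j < m + 1 then B1 j else B j) := by
      apply asm_congr
      intro j hj
      by_cases hjm : j = m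
      · subst hjm
        rw [Function.update_self, if_pos (Nat.lt_succ_self _), h3]
      · rw [Function.update_of_ne hjm]
        by_cases hjl : j < m
        · rw [if_pos hjl, if_pos (by omega)]
        · rw [if_neg hjl, if_neg (by omega)]
    rw [e] at h4
    exact h4

end Pool.Agent.MWS.H13
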