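import Pool.Agent.MWS.StmtsA

/-!
# MWS, row TLP: the two letter principle
-/

namespace Pool.Agent.MWS.H13

open Pool.Agent.Helper14_MV Pool.Agent.Helper2_MV Pool.Agent.MVO Pool.Agent.MWL Pool.Agent.MWS

/-- the substitution `x ↦ 0`, other letters `↦ 1` -/
def hh (x : ℕ) : ℕ → List ℕ := fun c => if c = x then [0] else [1]

/-- the substitution `0 ↦ x`, other letters `↦ y` -/
def hb (x y : ℕ) : ℕ → List ℕ := fun c => if c = 0 then [x] else [y]

theorem cnt01 {x y : ℕ} (hxy : x ≠ y) (l : List ℕ) :
    ((l.filter (fun c => decide (c = x ∨ c = y))).flatMap (hh x)).count 0 = l.count x ∧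
      ((l.filter (fun c => decide (c = x ∨ c = y))).flatMap (hh x)).count 1 = l.count y := by
  induction l with
  | nil => exact ⟨rfl, rfl⟩
  | cons a l ih =>
    by_cases hx : a = x
    · subst hx
      rw [List.filter_cons_of_pos (by rw [decide_eq_true_iff]; exact Or.inl rfl),
        List.flatMap_cons]
      have h1 : hh a a = [0] := if_pos rfl
      rw [h1, List.count_append, List.count_append, ih.1, ih.2, List.count_cons_self,
        List.count_cons_of_ne hxy]
      constructor
      · simp [Nat.add_comm]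
      · simp
    · by_cases hy : a = y
      · subst hy
        rw [List.filter_cons_of_pos (by rw [decide_eq_true_iff]; exact Or.inr rfl),
          List.flatMap_cons]
        have h1 : hh x a = [1] := if_neg hx
        rw [h1, List.count_append, List.count_append, ih.1, ih.2, List.count_cons_self,
          List.count_cons_of_ne hx]
        constructor
        · simp
        · simp [Nat.add_comm]
      · rw [List.filter_cons_of_neg (by
          rw [decide_eq_true_iff]
          rintro (h | h)
          · exact hx h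
          · exact hy h), ih.1, ih.2, List.count_cons_of_ne hx, List.count_cons_of_ne hy]
        exact ⟨rfl, rfl⟩

theorem back {x y : ℕ} (l : List ℕ) :
    ((l.filter (fun c => decide (c = x ∨ c = y))).flatMap (hh x)).flatMap (hb x y) =
      l.filter (fun c => decide (c = x ∨ c = y)) := by
  induction l with
  | nil => rfl
  | cons a l ih =>
    by_cases ha : a = x ∨ a = y
    · rw [List.filter_cons_of_pos (by rw [decide_eq_true_iff]; exact ha), List.flatMap_cons,
        List.flatMap_append, ih]
      have h1 : (hh x a).flatMap (hb x y) = [a] := by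
        by_cases hx : a = x
        · subst hx
          have h1 : hh a a = [0] := if_pos rfl
          rw [h1]
          rfl
        · have h1 : hh x a = [1] := if_neg hx
          rw [h1]
          rcases ha with h | h
          · exact absurd h hx
          · subst h
            rfl
      rw [h1]
      rfl
    · rw [List.filter_cons_of_neg (by rw [decide_eq_true_iff]; exact ha), ih]

theorem restrict (θ : FIC) {k : ℕ} {B B' : ℕ → List ℕ} (hB : BlkOk k B) (hB' : BlkOk k B')
    (x y : ℕ) (h : RR θ (asm k B) (asm k B')) :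
    RR θ (asm k (r2 x y B)) (asm k (r2 x y B')) := by
  have h1 := h.filter (fun c => decide (c = x ∨ c = y) || decide (2 ≤ c ∧ c ≤ k + 1))
  have key : ∀ D : ℕ → List ℕ, BlkOk k D →
      (asm k D).filter (fun c => decide (c = x ∨ c = y) || decide (2 ≤ c ∧ c ≤ k + 1)) =
        asm k (r2 x y D) := by
    intro D hD
    rw [asm_filter _ (fun c h1 h2 => by
      rw [Bool.or_eq_true]
      exact Or.inr (decide_eq_true ⟨h1, h2⟩))]
    apply asm_congr
    intro j hj
    apply List.filter_congr
    intro c hc
    have h2 : decide (2 ≤ c ∧ c ≤ k + 1) = false := decide_eq_false (hD j hj c hc)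
    rw [h2, Bool.or_false]
  rw [key B hB, key B' hB'] at h1
  exact h1

theorem mem_flat {x y c : ℕ} {l : List ℕ}
    (hc : c ∈ (l.filter (fun c => decide (c = x ∨ c = y))).flatMap (hh x)) :
    (c = 0 ∧ x ∈ l) ∨ (c = 1 ∧ y ∈ l) := by
  obtain ⟨d, hd, hcd⟩ := List.mem_flatMap.1 hc
  obtain ⟨h1, h2⟩ := List.mem_filter.1 hd
  rw [decide_eq_true_iff] at h2
  by_cases hx : d = x
  · subst hx
    have h3 : hh d d = [0] := if_pos rfl
    rw [h3, List.mem_singleton] at hcd
    exact Or.inl ⟨hcd, h1⟩
  · have h3 : hh x d = [1] := if_neg hx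
    rw [h3, List.mem_singleton] at hcd
    rcases h2 with h | h
    · exact absurd h hx
    · subst h
      exact Or.inr ⟨hcd, h1⟩

theorem okC {k : ℕ} {B : ℕ → List ℕ} (hB : OkB k B) {x y : ℕ} (hxy : x ≠ y) :
    OkB k (fun j => (r2 x y B j).flatMap (hh x)) ∧
      Two01 k (fun j => (r2 x y B j).flatMap (hh x)) := by
  refine ⟨⟨?_, ?_⟩, ?_⟩
  · intro j hj c hc
    rcases mem_flat hc with h | h
    · rw [h.1]; intro h; omega
    · rw [h.1]; intro h; omega
  · intro j hj c hc
    rcases mem_flat hc with h | h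
    · have h2 := hB.ml j hj x h.2
      have e : (fun j => ((r2 x y B j).flatMap (hh x)).count c) = fun j => (B j).count x := by
        funext j
        rw [h.1]
        exact (cnt01 hxy (B j)).1
      rw [e]
      exact h2
    · have h2 := hB.ml j hj y h.2
      have e : (fun j => ((r2 x y B j).flatMap (hh x)).count c) = fun j => (B j).count y := by
        funext j
        rw [h.1]
        exact (cnt01 hxy (B j)).2
      rw [e]
      exact h2
  · intro j hj c hc
    rcases mem_flat hc with h | h
    · exact Or.inl h.1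
    · exact Or.inr h.1

theorem blkOk_r2 {k : ℕ} {B : ℕ → List ℕ} (hB : BlkOk k B) (x y : ℕ) : BlkOk k (r2 x y B) := by
  intro j hj c hc
  exact hB j hj c (List.mem_filter.1 hc).1

theorem tlp : TlpStmt := by
  intro β hD hM ρ σ τ hρ hσ hτ nρ nσ nτ k B B' hB hB' h1 h2
  have hψτ : psi ρ σ τ ≤ τ :=
    FIC.sup_le (FIC.inf_le_right ρ τ) (FIC.inf_le_right σ τ)
  have nψ : NC2 (psi ρ σ τ) := fun h => nτ (hψτ _ _ h)
  have hβψ : β ≤ psi ρ σ τ := FIC.le_trans' (FIC.le_inf hρ hτ) (FIC.le_sup_left _ _)
  apply hD (psi ρ σ τ) hβψ nψ k B B' hB hB'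
  intro x y hx hy hxy
  obtain ⟨c1, c2⟩ := okC hB hxy
  obtain ⟨c3, c4⟩ := okC hB' hxy
  have e1 : ∀ θ : FIC, RR θ (asm k B) (asm k B') →
      RR θ (asm k (fun j => (r2 x y B j).flatMap (hh x)))
        (asm k (fun j => (r2 x y B' j).flatMap (hh x))) := fun θ h =>
    rr_sub θ (hh x) (blkOk_r2 hB.ok x y) (blkOk_r2 hB'.ok x y) (restrict θ hB.ok hB'.ok x y h)
  have h3 := hM ρ σ τ hρ hσ hτ nρ nσ nτ k _ _ c1 c3 c2 c4 (e1 _ h1) (e1 _ h2)
  have h4 := rr_sub (psi ρ σ τ) (hb x y) c1.ok c3.ok h3
  have e2 : ∀ D : ℕ → List ℕ, (fun j => ((r2 x y D j).flatMap (hh x)).flatMap (hb x y)) =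
      r2 x y D := by
    intro D
    funext j
    exact back (D j)
  rw [e2 B, e2 B'] at h4
  exact h4

end Pool.Agent.MWS.H13
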